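import Pool.Agent.P.MP_ecb9f8_pr.Final3

open MeasureTheory ProbabilityTheory Filter

namespace Pool.Agent.Results.MP_ecb9f8_pr.Coalescence

open Pool.Agent.FPP in
/-- Length-independent coalescence for every admissible law, with decay exponent one. -/
theorem result :
    ∃ α : ℕ, 0 < α ∧
      ∀ G : Measure ℝ, IsProbabilityMeasure G → G (Set.Iio 0) = 0 →
        (∃ a : ℝ, 0 < a ∧ Integrable (fun x : ℝ => Real.exp (a * x)) G) →
        G ≪ volume →
        ∃ C : ℝ, 0 < C ∧
          ∀ (Ω : Type) [MeasurableSpace Ω] (P : Measure Ω) [IsProbabilityMeasure P]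
            (t : Sym2 (ℤ × ℤ) → Ω → ℝ),
            (∀ e, Measurable (t e)) →
            iIndepFun t P →
            (∀ e, Measure.map (t e) P = G) →
            ∀ n h : ℕ, 0 < n → 0 < h →
              P {ω | ∃ p : (SimpleGraph.boxProd (SimpleGraph.hasse ℤ) (SimpleGraph.hasse ℤ)).Walk
                        ((0 : ℤ), (0 : ℤ)) ((n : ℤ), (0 : ℤ)),
                      ∃ q : (SimpleGraph.boxProd (SimpleGraph.hasse ℤ) (SimpleGraph.hasse ℤ)).Walk
                        ((0 : ℤ), (0 : ℤ)) ((n : ℤ), (h : ℤ)),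
                      (∀ p' : (SimpleGraph.boxProd (SimpleGraph.hasse ℤ) (SimpleGraph.hasse ℤ)).Walk
                          ((0 : ℤ), (0 : ℤ)) ((n : ℤ), (0 : ℤ)),
                        (p.edges.map (fun e => t e ω)).sum ≤ (p'.edges.map (fun e => t e ω)).sum) ∧
                      (∀ q' : (SimpleGraph.boxProd (SimpleGraph.hasse ℤ) (SimpleGraph.hasse ℤ)).Walk
                          ((0 : ℤ), (0 : ℤ)) ((n : ℤ), (h : ℤ)),
                        (q.edges.map (fun e => t e ω)).sum ≤ (q'.edges.map (fun e => t e ω)).sum) ∧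
                      h ^ α ≤ (symmDiff p.edges.toFinset q.edges.toFinset).card}
                ≤ ENNReal.ofReal (C / (h : ℝ)) := by
  refine ⟨expA, by unfold expA; norm_num, ?_⟩
  intro G hG1 hG2 hG3 hG4
  have hG : Law G := ⟨hG2, hG3, hG4⟩
  obtain ⟨C, hC, hfar⟩ := far_all3 G hG
  refine ⟨C, hC, fun Ω mΩ P _ t hm hi hl n h _ hh => ?_⟩
  letI : MeasureSpace Ω := ⟨P⟩
  have hX : Measurable (fun ω e => t e ω : Ω → Env) := measurable_pi_lambda _ hm
  have hmap : Measure.map (fun ω e => t e ω : Ω → Env) P = PP G :=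
    law_map (Ω := Ω) hm hi hl
  have hpos : ∀ᵐ ω ∂P, ∀ e, 0 < t e ω := by
    have := ae_pos G hG
    rw [← hmap] at this
    exact ae_of_ae_map hX.aemeasurable this
  have h1 := hfar n h hh
  rw [← hmap] at h1
  have h2 := le_trans (Measure.le_map_apply hX.aemeasurable _) h1
  rw [div_eq_mul_inv]
  refine le_trans (measure_mono_ae ?_) h2
  filter_upwards [hpos] with ω hω
  rintro ⟨p, q, hp, hq, hR⟩
  exact far_of_walks (ω := fun e => t e ω) (fun e => (hω e).le) p q hp hq hR

end Pool.Agent.Results.MP_ecb9f8_pr.Coalescence
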